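import Mathlib

/-!
# MP_ea20df_gt: locally pseudocompact spaces of small weight

Every locally pseudocompact Tychonoff space with a base of cardinality at most the
continuum has a countably compact base, and every locally pseudocompact Tychonoff space
in which each nonempty open set contains a nonempty open set of pi-weight at most the
continuum has a countably compact pseudobase of open sets.
-/

namespace Pool.Agent.Results.MP_ea20df_gt.WeightContinuum

open Set Topology TopologicalSpace Cardinal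

universe u

/-- Every continuous real function on `X` is bounded. -/
def Pseudocompact (X : Type u) [TopologicalSpace X] : Prop :=
  ∀ f : X → ℝ, Continuous f → ∃ M : ℝ, ∀ x, |f x| ≤ M

/-- Every point has an open neighbourhood whose closure is pseudocompact. -/
def LocallyPseudocompact (X : Type u) [TopologicalSpace X] : Prop :=
  ∀ x : X, ∃ U : Set X, IsOpen U ∧ x ∈ U ∧ Pseudocompact (closure U)

/-- Every decreasing sequence of members has nonempty intersection. -/
def CountablyCompactFamily {X : Type u} (F : Set (Set X)) : Prop :=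
  ∀ S : ℕ → Set X, (∀ n, S n ∈ F) → Antitone S → (⋂ n, S n).Nonempty

/-- There is a countably compact base. -/
def TelgarskyCountablyCompact (X : Type u) [TopologicalSpace X] : Prop :=
  ∃ B : Set (Set X), IsTopologicalBasis B ∧ CountablyCompactFamily B

/-- `B` is a pseudobase. -/
def IsPseudobase {X : Type u} [TopologicalSpace X] (B : Set (Set X)) : Prop :=
  (∀ b ∈ B, (interior b).Nonempty) ∧
    ∀ U : Set X, IsOpen U → U.Nonempty → ∃ b ∈ B, b ⊆ U

/-- There is a countably compact pseudobase consisting of open sets. -/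
def OxtobyCountablyCompact (X : Type u) [TopologicalSpace X] : Prop :=
  ∃ B : Set (Set X), IsPseudobase B ∧ (∀ b ∈ B, IsOpen b) ∧ CountablyCompactFamily B

/-- The space has a base of cardinality at most the continuum. -/
def WeightLeContinuum (X : Type u) [TopologicalSpace X] : Prop :=
  ∃ U : Set (Set X), IsTopologicalBasis U ∧ #U ≤ 𝔠

/-- The open set `W` has a pi-base of cardinality at most the continuum. -/
def PiWeightLeContinuum {X : Type u} [TopologicalSpace X] (W : Set X) : Prop :=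
  ∃ U : Set (Set X), (∀ b ∈ U, IsOpen b ∧ b.Nonempty ∧ b ⊆ W) ∧
    (∀ V : Set X, IsOpen V → V.Nonempty → V ⊆ W → ∃ b ∈ U, b ⊆ V) ∧ #U ≤ 𝔠

section Core

variable {X : Type u} [TopologicalSpace X]

/-- Decreasing sequences of nonempty open sets inside an open set with pseudocompact
closure have a common point of closure. -/
theorem inter_closure_nonempty [CompletelyRegularSpace X] {P : Set X} (hP : Pseudocompact (closure P))
    (S : ℕ → Set X) (hS : Antitone S) (ho : ∀ n, IsOpen (S n)) (hne : ∀ n, (S n).Nonempty)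
    (hSP : ∀ n, S n ⊆ P) : (⋂ n, closure (S n)).Nonempty := by
  by_contra hcon
  rw [not_nonempty_iff_eq_empty] at hcon
  choose x hx using hne
  have hf : ∀ n, ∃ f : X → ℝ, Continuous f ∧ f (x n) = 1 ∧ (∀ y, 0 ≤ f y) ∧
      ∀ y, y ∉ S n → f y = 0 := by
    intro n
    obtain ⟨f, hfc, hf0, hf1⟩ := CompletelyRegularSpace.completely_regular (x n) (S n)ᶜ
      (ho n).isClosed_compl (by simpa using hx n)
    refine ⟨fun y => 1 - (f y : ℝ), by fun_prop, by simp [hf0], fun y => ?_, fun y hy => ?_⟩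
    · have := (f y).2.2; linarith
    · have : f y = 1 := hf1 hy
      simp [this]
  choose f hfc hf1 hf0 hfS using hf
  have hlf : LocallyFinite (fun n : ℕ => Function.support (fun y => (n : ℝ) * f n y)) := by
    intro y
    have hy : y ∉ ⋂ n, closure (S n) := by rw [hcon]; exact notMem_empty y
    rw [mem_iInter, not_forall] at hy
    obtain ⟨n, hn⟩ := hy
    refine ⟨(closure (S n))ᶜ, isClosed_closure.isOpen_compl.mem_nhds hn, ?_⟩
    refine (finite_lt_nat n).subset ?_
    rintro i ⟨z, hz1, hz2⟩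
    by_contra hi
    have hin : n ≤ i := not_lt.1 hi
    apply hz2
    have hz : z ∈ S i := by
      by_contra hzS
      apply hz1
      show (i : ℝ) * f i z = 0
      rw [hfS i z hzS, mul_zero]
    exact subset_closure (hS hin hz)
  have hcont : Continuous (fun y => ∑ᶠ n : ℕ, (n : ℝ) * f n y) :=
    continuous_finsum (fun n : ℕ => continuous_const.mul (hfc n)) hlf
  obtain ⟨M, hM⟩ := hP (fun y : closure P => ∑ᶠ n : ℕ, (n : ℝ) * f n y)
    (hcont.comp continuous_subtype_val)
  obtain ⟨n, hn⟩ := exists_nat_gt M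
  have h1 := hM ⟨x n, subset_closure (hSP n (hx n))⟩
  have h2 : (n : ℝ) * f n (x n) ≤ ∑ᶠ m : ℕ, (m : ℝ) * f m (x n) := by
    refine single_le_finsum (f := fun m : ℕ => (m : ℝ) * f m (x n)) n ?_
      (fun j => mul_nonneg (Nat.cast_nonneg j) (hf0 j _))
    exact (hlf.point_finite (x n)).subset (fun i hi => hi)
  rw [hf1, mul_one] at h2
  have h3 := le_abs_self (∑ᶠ m : ℕ, (m : ℝ) * f m (x n))
  simp only at h1
  linarith

omit [TopologicalSpace X] in
/-- The choice of one level `t` avoiding fewer than continuum many touching levels. -/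
theorem exists_level {ι : Type u} (r : ι → ι → Prop) (a : ι) (hcard : #{b // r b a} < 𝔠)
    (φ : X → ℝ) (B : {b // r b a} → Set X) :
    ∃ s ∈ Ioo (0:ℝ) 1, ∀ b, {x | s < φ x} ⊆ B b → {x | s ≤ φ x} ⊆ B b := by
  by_contra hcon
  push Not at hcon
  have h : ∀ s : Ioo (0:ℝ) 1, ∃ b, {x | s.1 < φ x} ⊆ B b ∧ ¬ {x | s.1 ≤ φ x} ⊆ B b :=
    fun s => hcon s.1 s.2
  choose g hg1 hg2 using h
  have hinj : Function.Injective g := by
    have key : ∀ s s' : Ioo (0:ℝ) 1, g s = g s' → ¬ s.1 < s'.1 := by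
      intro s s' hss hlt
      apply hg2 s'
      rw [← hss]
      intro x hx
      exact hg1 s (lt_of_lt_of_le hlt hx)
    intro s s' hss
    rcases lt_trichotomy s.1 s'.1 with h | h | h
    · exact absurd h (key s s' hss)
    · exact Subtype.ext h
    · exact absurd h (key s' s hss.symm)
  have h1 := Cardinal.lift_mk_le_lift_mk_of_injective hinj
  rw [Cardinal.mk_Ioo_real one_pos] at h1
  rw [Cardinal.lift_continuum] at h1
  have h2 : Cardinal.lift.{0} #{b // r b a} = #{b // r b a} := by simp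
  rw [h2] at h1
  exact absurd hcard (not_lt.2 h1)

omit [TopologicalSpace X] in
/-- Recursive choice of the levels. -/
theorem exists_levels {ι : Type u} (r : ι → ι → Prop) (hwf : WellFounded r)
    (hcard : ∀ a, #{b // r b a} < 𝔠) (φ : ι → X → ℝ) :
    ∃ t : ι → ℝ, (∀ a, t a ∈ Ioo (0:ℝ) 1) ∧ ∀ a b, r b a →
      {x | t a < φ a x} ⊆ {x | t b < φ b x} → {x | t a ≤ φ a x} ⊆ {x | t b < φ b x} := by
  classical
  have H : ∀ (a : ι) (p : ∀ b, r b a → ℝ), ∃ s ∈ Ioo (0:ℝ) 1, ∀ b : {b // r b a},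
      {x | s < φ a x} ⊆ {x | p b.1 b.2 < φ b.1 x} →
        {x | s ≤ φ a x} ⊆ {x | p b.1 b.2 < φ b.1 x} := fun a p =>
    exists_level r a (hcard a) (φ a) (fun b => {x | p b.1 b.2 < φ b.1 x})
  let t : ι → ℝ := hwf.fix (fun a p => Classical.choose (H a p))
  have ht : ∀ a, t a = Classical.choose (H a (fun b _ => t b)) := fun a =>
    hwf.fix_eq (fun a p => Classical.choose (H a p)) a
  refine ⟨t, fun a => ?_, fun a b hba h => ?_⟩
  · rw [ht a]; exact (Classical.choose_spec (H a (fun b _ => t b))).1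
  · have h3 := (Classical.choose_spec (H a (fun b _ => t b))).2 ⟨b, hba⟩
    rw [← ht a] at h3
    exact h3 h

/-- The main construction. -/
theorem core [CompletelyRegularSpace X] {ι : Type u} (hι : #ι ≤ 𝔠) (φ : ι → X → ℝ)
    (hφ : ∀ a, Continuous (φ a)) (h1 : ∀ a, ∃ x, 1 ≤ φ a x)
    (P : ι → Set X) (hP : ∀ a, Pseudocompact (closure (P a)))
    (hφP : ∀ a x, 0 < φ a x → x ∈ P a) :
    ∃ t : ι → ℝ, (∀ a, t a ∈ Ioo (0:ℝ) 1) ∧
      CountablyCompactFamily (range fun a => {x | t a < φ a x}) := by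
  obtain ⟨r, hr, hord⟩ := Cardinal.exists_ord_eq ι
  have hcard : ∀ a, #{b // r b a} < 𝔠 := by
    intro a
    have h := Cardinal.card_typein_lt (r := r) a hord
    rw [Ordinal.card_typein] at h
    exact h.trans_le hι
  obtain ⟨t, ht, htt⟩ := exists_levels r hr.wf hcard φ
  refine ⟨t, ht, ?_⟩
  intro S hS hanti
  choose a ha using hS
  have hopen : ∀ n, IsOpen (S n) := fun n => by
    rw [← ha n]; exact isOpen_lt continuous_const (hφ _)
  have hne : ∀ n, (S n).Nonempty := fun n => by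
    obtain ⟨x, hx⟩ := h1 (a n)
    refine ⟨x, ?_⟩
    rw [← ha n]
    exact lt_of_lt_of_le (ht (a n)).2 hx
  by_cases hgood : ∀ N, ∃ n, N ≤ n ∧ ∃ m, closure (S m) ⊆ S n
  · have hSP : ∀ n, S n ⊆ P (a 0) := by
      intro n x hx
      have hx0 : x ∈ S 0 := hanti (Nat.zero_le n) hx
      rw [← ha 0] at hx0
      exact hφP _ _ ((ht (a 0)).1.trans hx0)
    obtain ⟨x, hx⟩ := inter_closure_nonempty (hP (a 0)) S hanti hopen hne hSP
    refine ⟨x, mem_iInter.2 fun k => ?_⟩
    obtain ⟨n, hkn, m, hm⟩ := hgood k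
    exact hanti hkn (hm (mem_iInter.1 hx m))
  · push Not at hgood
    obtain ⟨N, hN⟩ := hgood
    have hle : ∀ n m, N ≤ n → n ≤ m → ¬ r (a n) (a m) := by
      intro n m hn hnm hrr
      apply hN n hn m
      have hsub : {x | t (a m) < φ (a m) x} ⊆ {x | t (a n) < φ (a n) x} := by
        have := hanti hnm
        rw [← ha n, ← ha m] at this
        exact this
      have h2 := htt (a m) (a n) hrr hsub
      rw [← ha n, ← ha m]
      refine Subset.trans ?_ h2
      refine closure_minimal (fun x hx => ?_) (isClosed_le continuous_const (hφ _))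
      exact le_of_lt (show t (a m) < φ (a m) x from hx)
    obtain ⟨c, ⟨n0, hn0, rfl⟩, hmin⟩ := hr.wf.has_min (a '' {n | N ≤ n}) ⟨a N, N, le_refl N, rfl⟩
    have hconst : ∀ m, n0 ≤ m → a m = a n0 := by
      intro m hm
      have h3 : ¬ r (a n0) (a m) := hle n0 m hn0 hm
      have h4 : ¬ r (a m) (a n0) := hmin (a m) ⟨m, le_trans hn0 hm, rfl⟩
      rcases trichotomous_of r (a m) (a n0) with h | h | h
      · exact absurd h h4
      · exact h
      · exact absurd h h3
    obtain ⟨x, hx⟩ := hne n0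
    refine ⟨x, mem_iInter.2 fun k => ?_⟩
    rcases le_total k n0 with hk | hk
    · exact hanti hk hx
    · have : S k = S n0 := by rw [← ha k, ← ha n0, hconst k hk]
      rw [this]; exact hx

end Core

section Main

variable {X : Type u} [TopologicalSpace X]

/-- Urysohn-type function from complete regularity. -/
theorem exists_fun [CompletelyRegularSpace X] {x : X} {W : Set X} (hW : IsOpen W) (hx : x ∈ W) :
    ∃ f : X → ℝ, Continuous f ∧ f x = 1 ∧ ∀ y, 0 < f y → y ∈ W := by
  obtain ⟨f, hfc, hf0, hf1⟩ := CompletelyRegularSpace.completely_regular x Wᶜ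
    hW.isClosed_compl (by simpa using hx)
  refine ⟨fun y => 1 - (f y : ℝ), by fun_prop, by simp [hf0], fun y hy => ?_⟩
  by_contra hyW
  have : f y = 1 := hf1 hyW
  simp [this] at hy

/-- The Telgarsky part, with a base of cozero sets. -/
theorem exists_cozero_base [CompletelyRegularSpace X] (hX : LocallyPseudocompact X)
    (hw : WeightLeContinuum X) : ∃ B : Set (Set X), IsTopologicalBasis B ∧
      CountablyCompactFamily B ∧ ∀ b ∈ B, ∃ g : X → ℝ, Continuous g ∧ b = {x | 0 < g x} := by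
  obtain ⟨U, hU, hUc⟩ := hw
  let Q : U × U → (X → ℝ) × Set X → Prop := fun p q =>
    Continuous q.1 ∧ (∃ x, 1 ≤ q.1 x) ∧ (∀ x ∈ p.1.1, 1 ≤ q.1 x) ∧ (∀ x, 0 < q.1 x → x ∈ p.2.1) ∧
      p.2.1 ⊆ q.2 ∧ Pseudocompact (closure q.2)
  let J : Type u := {p : U × U // ∃ q, Q p q}
  have hJ : #J ≤ 𝔠 := by
    have h1 : #J ≤ #(U × U) := Cardinal.mk_subtype_le _
    have h2 : #(U × U) ≤ 𝔠 := by
      rw [Cardinal.mk_prod, Cardinal.lift_id]
      calc #U * #U ≤ 𝔠 * 𝔠 := mul_le_mul' hUc hUc
        _ = 𝔠 := Cardinal.continuum_mul_self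
    exact h1.trans h2
  choose q hq using fun j : J => j.2
  obtain ⟨t, ht, hcc⟩ := core hJ (fun j => (q j).1) (fun j => (hq j).1) (fun j => (hq j).2.1)
    (fun j => (q j).2) (fun j => (hq j).2.2.2.2.2)
    (fun j x hx => (hq j).2.2.2.2.1 ((hq j).2.2.2.1 x hx))
  refine ⟨_, ?_, hcc, ?_⟩
  swap
  · rintro _ ⟨j, rfl⟩
    refine ⟨fun x => (q j).1 x - t j, (hq j).1.sub continuous_const, ?_⟩
    ext x
    show t j < (q j).1 x ↔ 0 < (q j).1 x - t j
    exact (sub_pos (a := (q j).1 x) (b := t j)).symm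
  refine isTopologicalBasis_of_isOpen_of_nhds ?_ ?_
  · rintro _ ⟨j, rfl⟩
    exact isOpen_lt continuous_const (hq j).1
  · intro x O hxO hO
    obtain ⟨P, hPo, hxP, hPp⟩ := hX x
    obtain ⟨W, hWU, hxW, hWO⟩ := hU.exists_subset_of_mem_open (show x ∈ O ∩ P from ⟨hxO, hxP⟩)
      (hO.inter hPo)
    obtain ⟨f, hfc, hf1, hf0⟩ := exists_fun (hU.isOpen hWU) hxW
    obtain ⟨V, hVU, hxV, hVf⟩ := hU.exists_subset_of_mem_open
      (show x ∈ {y | 1 / 2 < f y} by show 1 / 2 < f x; rw [hf1]; norm_num)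
      (isOpen_lt continuous_const hfc)
    have hQ : Q (⟨V, hVU⟩, ⟨W, hWU⟩) (fun y => 2 * f y, P) := by
      refine ⟨by fun_prop, ⟨x, by simp only [hf1]; norm_num⟩, fun y hy => ?_, fun y hy => ?_,
        fun y hy => (hWO hy).2, hPp⟩
      · have : 1 / 2 < f y := hVf hy
        show 1 ≤ 2 * f y
        linarith
      · have hy' : 0 < 2 * f y := hy
        exact hf0 y (by linarith)
    let j : J := ⟨(⟨V, hVU⟩, ⟨W, hWU⟩), _, hQ⟩
    refine ⟨_, ⟨j, rfl⟩, ?_, ?_⟩
    · exact lt_of_lt_of_le (ht j).2 ((hq j).2.2.1 x hxV)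
    · intro y hy
      have hy' : t j < (q j).1 y := hy
      exact (hWO ((hq j).2.2.2.1 y ((ht j).1.trans hy'))).1

/-- The Telgarsky part. -/
theorem telgarsky_of_weight [CompletelyRegularSpace X] (hX : LocallyPseudocompact X)
    (hw : WeightLeContinuum X) : TelgarskyCountablyCompact X := by
  obtain ⟨B, h1, h2, _⟩ := exists_cozero_base hX hw
  exact ⟨B, h1, h2⟩

/-- A compact space is locally pseudocompact. -/
theorem locallyPseudocompact_of_compact [CompactSpace X] : LocallyPseudocompact X := by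
  intro x
  refine ⟨univ, isOpen_univ, mem_univ x, ?_⟩
  intro f hf
  have : CompactSpace (closure (univ : Set X)) :=
    isCompact_iff_compactSpace.1 isClosed_closure.isCompact
  obtain ⟨C, hC⟩ := isCompact_univ.exists_bound_of_continuousOn (f := f) hf.continuousOn
  exact ⟨C, fun y => by simpa using hC y (mem_univ y)⟩

/-- Subspaces of arbitrary products of compact spaces of weight at most the continuum that
meet all nonempty `G_delta` sets. -/
theorem telgarsky_of_product {I : Type u} (K : I → Type u) [∀ i, TopologicalSpace (K i)]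
    [∀ i, CompactSpace (K i)] [∀ i, T2Space (K i)] (hK : ∀ i, WeightLeContinuum (K i))
    (Y : Set (∀ i, K i))
    (hY : ∀ G : Set (∀ i, K i), IsGδ G → G.Nonempty → (G ∩ Y).Nonempty) :
    TelgarskyCountablyCompact Y := by
  classical
  rcases isEmpty_or_nonempty (∀ i, K i) with hemp | hnemp
  · have : IsEmpty Y := ⟨fun y => hemp.false y.1⟩
    refine ⟨∅, isTopologicalBasis_empty.2 inferInstance, ?_⟩
    intro S hS
    exact absurd (hS 0) (notMem_empty _)
  obtain ⟨y0⟩ := hnemp
  have hbase : ∀ i, ∃ B : Set (Set (K i)), IsTopologicalBasis B ∧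
      CountablyCompactFamily B ∧ ∀ b ∈ B, ∃ g : K i → ℝ, Continuous g ∧ b = {x | 0 < g x} :=
    fun i => exists_cozero_base locallyPseudocompact_of_compact (hK i)
  choose B hB1 hB2 hB3 using hbase
  have hBne : ∀ i, ∀ b ∈ B i, b.Nonempty := by
    intro i b hb
    have := hB2 i (fun _ => b) (fun _ => hb) (fun _ _ _ => le_refl _)
    rwa [iInter_const] at this
  refine ⟨_, (isTopologicalBasis_pi hB1).isInducing
    (Topology.IsInducing.subtypeVal (t := Y)), ?_⟩
  intro S hS hanti
  choose T hT hTS using hS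
  choose U F hUF hTUF using hT
  -- full coordinate sets
  let V : ℕ → ∀ i, Set (K i) := fun n i => if i ∈ F n then U n i else univ
  have hTV : ∀ n, T n = {z | ∀ i, z i ∈ V n i} := by
    intro n
    rw [hTUF n]
    ext z
    simp only [Set.mem_pi, Finset.mem_coe]
    constructor
    · intro h i
      show z i ∈ if i ∈ F n then U n i else univ
      split_ifs with hi
      · exact h i hi
      · exact mem_univ _
    · intro h i hi
      have h2 : z i ∈ if i ∈ F n then U n i else univ := h i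
      rwa [if_pos hi] at h2
  have hVne : ∀ n i, (V n i).Nonempty := by
    intro n i
    show (if i ∈ F n then U n i else univ : Set (K i)).Nonempty
    split_ifs with hi
    · exact hBne i _ (hUF n i hi)
    · exact ⟨y0 i, mem_univ _⟩
  have hTopen : ∀ n, IsOpen (T n) := by
    intro n
    rw [hTUF n]
    exact isOpen_set_pi (F n).finite_toSet (fun i hi => (hB1 i).isOpen (hUF n i hi))
  -- the full boxes are decreasing
  have hTanti : ∀ n m, n ≤ m → T m ⊆ T n := by
    intro n m hnm z hz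
    by_contra hzn
    have hzn' : ∃ i, i ∈ F n ∧ z i ∉ U n i := by
      by_contra hcon
      push Not at hcon
      apply hzn
      rw [hTUF n]
      exact fun i hi => hcon i hi
    obtain ⟨i, hi, hzi⟩ := hzn'
    obtain ⟨g, hg, hgU⟩ := hB3 i _ (hUF n i hi)
    have hG : IsGδ (T m ∩ (fun z : ∀ i, K i => g (z i)) ⁻¹' (Iic 0)) :=
      (hTopen m).isGδ.inter (IsGδ.preimage (hg.comp (continuous_apply i)) isClosed_Iic.isGδ)
    have hzG : z ∈ T m ∩ (fun z : ∀ i, K i => g (z i)) ⁻¹' (Iic 0) := by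
      refine ⟨hz, ?_⟩
      rw [hgU] at hzi
      have hzi' : ¬ (0 < g (z i)) := hzi
      exact not_lt.1 hzi'
    obtain ⟨x, hxG, hxY⟩ := hY _ hG ⟨z, hzG⟩
    have h1 : (⟨x, hxY⟩ : Y) ∈ S m := by
      rw [← hTS m]; exact hxG.1
    have h2 : (⟨x, hxY⟩ : Y) ∈ S n := hanti hnm h1
    rw [← hTS n] at h2
    have h3 : x ∈ T n := h2
    rw [hTUF n] at h3
    have h4 : x i ∈ U n i := h3 i hi
    rw [hgU] at h4
    exact absurd (show 0 < g (x i) from h4) (not_lt.2 hxG.2)
  have hVanti : ∀ i n m, n ≤ m → V m i ⊆ V n i := by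
    intro i n m hnm v hv
    choose w hw using hVne m
    have h1 : Function.update w i v ∈ T m := by
      rw [hTV m]
      intro j
      rcases eq_or_ne j i with rfl | hj
      · simpa using hv
      · rw [Function.update_of_ne hj]; exact hw j
    have h2 := hTanti n m hnm h1
    rw [hTV n] at h2
    have h3 := h2 i
    simpa using h3
  have hz : ∀ i, ∃ z : K i, ∀ n, z ∈ V n i := by
    intro i
    by_cases hex : ∃ n0, i ∈ F n0
    · obtain ⟨n0, hn0⟩ := hex
      have hV0 : V n0 i = U n0 i := if_pos hn0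
      have hmem : ∀ n, V (n0 + n) i ∈ B i := by
        intro n
        by_cases hi : i ∈ F (n0 + n)
        · have : V (n0 + n) i = U (n0 + n) i := if_pos hi
          rw [this]; exact hUF _ i hi
        · have h1 : V (n0 + n) i = Set.univ := if_neg hi
          have h2 := hVanti i n0 (n0 + n) (Nat.le_add_right _ _)
          rw [h1, hV0] at h2
          have h3 : V (n0 + n) i = U n0 i := by
            rw [h1]; exact (univ_subset_iff.1 h2).symm
          rw [h3]; exact hUF _ i hn0
      obtain ⟨z, hz⟩ := hB2 i (fun n => V (n0 + n) i) hmem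
        (fun a b hab => hVanti i _ _ (Nat.add_le_add_left hab n0))
      refine ⟨z, fun n => ?_⟩
      have h1 := mem_iInter.1 hz n
      exact hVanti i n (n0 + n) (Nat.le_add_left _ _) h1
    · refine ⟨y0 i, fun n => ?_⟩
      have : V n i = Set.univ := if_neg (fun h => hex ⟨n, h⟩)
      rw [this]; exact mem_univ _
  choose z hz using hz
  have hzT : z ∈ ⋂ n, T n := mem_iInter.2 fun n => by
    rw [hTV n]; exact fun i => hz i n
  obtain ⟨x, hxG, hxY⟩ := hY _ (IsGδ.iInter_of_isOpen hTopen) ⟨z, hzT⟩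
  refine ⟨⟨x, hxY⟩, mem_iInter.2 fun n => ?_⟩
  rw [← hTS n]
  exact mem_iInter.1 hxG n

/-- Pseudobase below one open set. -/
theorem pseudobase_below [CompletelyRegularSpace X] {W P : Set X}
    (hWP : W ⊆ P) (hP : Pseudocompact (closure P)) (hw : PiWeightLeContinuum W) :
    ∃ B : Set (Set X), (∀ b ∈ B, IsOpen b ∧ b.Nonempty ∧ b ⊆ W) ∧
      (∀ V : Set X, IsOpen V → V.Nonempty → V ⊆ W → ∃ b ∈ B, b ⊆ V) ∧
      CountablyCompactFamily B := by
  obtain ⟨U, hU, hUV, hUc⟩ := hw
  have hf : ∀ b : U, ∃ f : X → ℝ, Continuous f ∧ (∃ x, 1 ≤ f x) ∧ ∀ y, 0 < f y → y ∈ b.1 := by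
    intro b
    obtain ⟨x, hx⟩ := (hU b.1 b.2).2.1
    obtain ⟨f, hfc, hf1, hf0⟩ := exists_fun (hU b.1 b.2).1 hx
    exact ⟨f, hfc, ⟨x, hf1.ge⟩, hf0⟩
  choose f hfc hf1 hf0 using hf
  obtain ⟨t, ht, hcc⟩ := core hUc f hfc hf1 (fun _ => P) (fun _ => hP)
    (fun b x hx => hWP ((hU b.1 b.2).2.2 (hf0 b x hx)))
  refine ⟨_, ?_, ?_, hcc⟩
  · rintro _ ⟨b, rfl⟩
    refine ⟨isOpen_lt continuous_const (hfc b), ?_, ?_⟩
    · obtain ⟨x, hx⟩ := hf1 b
      exact ⟨x, lt_of_lt_of_le (ht b).2 hx⟩
    · intro y hy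
      have hy' : t b < f b y := hy
      exact (hU b.1 b.2).2.2 (hf0 b y ((ht b).1.trans hy'))
  · intro V hV hVne hVW
    obtain ⟨b, hb, hbV⟩ := hUV V hV hVne hVW
    refine ⟨_, ⟨⟨b, hb⟩, rfl⟩, ?_⟩
    intro y hy
    have hy' : t ⟨b, hb⟩ < f ⟨b, hb⟩ y := hy
    exact hbV (hf0 ⟨b, hb⟩ y ((ht ⟨b, hb⟩).1.trans hy'))

/-- pi-weight passes to smaller open sets. -/
theorem PiWeightLeContinuum.mono {W W' : Set X} (h : PiWeightLeContinuum W) (hW : W' ⊆ W) :
    PiWeightLeContinuum W' := by
  obtain ⟨U, hU, hUV, hUc⟩ := h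
  refine ⟨{b ∈ U | b ⊆ W'}, fun b hb => ⟨(hU b hb.1).1, (hU b hb.1).2.1, hb.2⟩, ?_, ?_⟩
  · intro V hV hVne hVW
    obtain ⟨b, hb, hbV⟩ := hUV V hV hVne (hVW.trans hW)
    exact ⟨b, ⟨hb, hbV.trans hVW⟩, hbV⟩
  · exact (Cardinal.mk_le_mk_of_subset (fun b hb => hb.1)).trans hUc

/-- The Oxtoby part. -/
theorem oxtoby_of_local_piweight [CompletelyRegularSpace X] (hX : LocallyPseudocompact X)
    (hw : ∀ O : Set X, IsOpen O → O.Nonempty →
      ∃ W : Set X, IsOpen W ∧ W.Nonempty ∧ W ⊆ O ∧ PiWeightLeContinuum W) :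
    OxtobyCountablyCompact X := by
  classical
  let G : Set X → Prop := fun W => IsOpen W ∧ W.Nonempty ∧ PiWeightLeContinuum W ∧
    ∃ P : Set X, W ⊆ P ∧ Pseudocompact (closure P)
  obtain ⟨M, hM⟩ := zorn_subset {F : Set (Set X) | (∀ W ∈ F, G W) ∧ F.PairwiseDisjoint id} (by
    intro C hC hchain
    refine ⟨⋃₀ C, ⟨?_, ?_⟩, fun s hs => subset_sUnion_of_mem hs⟩
    · rintro W ⟨F, hF, hWF⟩
      exact (hC hF).1 W hWF
    · rw [pairwiseDisjoint_sUnion hchain.directedOn]
      exact fun F hF => (hC hF).2)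
  have hMG := hM.prop.1
  have hMd := hM.prop.2
  have hdense : ∀ O : Set X, IsOpen O → O.Nonempty → ∃ W ∈ M, (O ∩ W).Nonempty := by
    intro O hO hOne
    by_contra hcon
    push Not at hcon
    obtain ⟨x, hx⟩ := hOne
    obtain ⟨P, hPo, hxP, hPp⟩ := hX x
    obtain ⟨W, hWo, hWne, hWO, hWpi⟩ := hw (O ∩ P) (hO.inter hPo) ⟨x, hx, hxP⟩
    have hGW : G W := ⟨hWo, hWne, hWpi, P, fun y hy => (hWO hy).2, hPp⟩
    have hdisj : ∀ V ∈ M, Disjoint W V := by
      intro V hV
      rw [Set.disjoint_iff_inter_eq_empty]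
      refine subset_empty_iff.1 ?_
      rw [← hcon V hV]
      exact fun y hy => ⟨(hWO hy.1).1, hy.2⟩
    have hins : insert W M ∈ {F : Set (Set X) | (∀ W ∈ F, G W) ∧ F.PairwiseDisjoint id} := by
      refine ⟨?_, ?_⟩
      · intro V hV
        rcases mem_insert_iff.1 hV with rfl | hV
        · exact hGW
        · exact hMG V hV
      · exact hMd.insert (fun V hV _ => hdisj V hV)
    have hWM : W ∈ M := hM.le_of_ge hins (subset_insert W M) (mem_insert W M)
    obtain ⟨y, hy⟩ := hWne
    exact (disjoint_left.1 (hdisj W hWM) hy) hy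
  have hB : ∀ W : M, ∃ B : Set (Set X), (∀ b ∈ B, IsOpen b ∧ b.Nonempty ∧ b ⊆ W.1) ∧
      (∀ V : Set X, IsOpen V → V.Nonempty → V ⊆ W.1 → ∃ b ∈ B, b ⊆ V) ∧
      CountablyCompactFamily B := by
    intro W
    obtain ⟨_, _, hWpi, P, hWP, hPp⟩ := hMG W.1 W.2
    exact pseudobase_below hWP hPp hWpi
  choose B hB1 hB2 hB3 using hB
  refine ⟨⋃ W, B W, ⟨?_, ?_⟩, ?_, ?_⟩
  · intro b hb
    obtain ⟨W, hW⟩ := mem_iUnion.1 hb
    rw [(hB1 W b hW).1.interior_eq]
    exact (hB1 W b hW).2.1
  · intro O hO hOne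
    obtain ⟨W, hWM, hne⟩ := hdense O hO hOne
    obtain ⟨b, hb, hbO⟩ := hB2 ⟨W, hWM⟩ (O ∩ W) (hO.inter (hMG W hWM).1) hne inter_subset_right
    exact ⟨b, mem_iUnion.2 ⟨⟨W, hWM⟩, hb⟩, hbO.trans inter_subset_left⟩
  · intro b hb
    obtain ⟨W, hW⟩ := mem_iUnion.1 hb
    exact (hB1 W b hW).1
  · intro S hS hanti
    have h := fun n => mem_iUnion.1 (hS n)
    choose W hW using h
    have hWW : ∀ n, W n = W 0 := by
      intro n
      by_contra hne
      have hne' : (W n).1 ≠ (W 0).1 := fun h => hne (Subtype.ext h)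
      have hd : Disjoint (W n).1 (W 0).1 := hMd (W n).2 (W 0).2 hne'
      obtain ⟨y, hy⟩ := (hB1 (W n) (S n) (hW n)).2.1
      exact disjoint_left.1 hd ((hB1 (W n) (S n) (hW n)).2.2 hy)
        ((hB1 (W 0) (S 0) (hW 0)).2.2 (hanti (Nat.zero_le n) hy))
    refine hB3 (W 0) S (fun n => ?_) hanti
    rw [← hWW n]
    exact hW n

/-- **Result.** (1) Every locally pseudocompact Tychonoff space with a base of cardinality at
most the continuum is Telgarsky countably compact.  (2) Every locally pseudocompact Tychonoff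
space in which every nonempty open set contains a nonempty open set with a pi-base of
cardinality at most the continuum is Oxtoby countably compact.  (3) Every subspace of an
arbitrary product of compact Hausdorff spaces of weight at most the continuum that meets every
nonempty `G_delta` set of the product is Telgarsky countably compact. -/
theorem result :
    (∀ (X : Type u) [TopologicalSpace X] [T35Space X], LocallyPseudocompact X →
      WeightLeContinuum X → TelgarskyCountablyCompact X) ∧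
    (∀ (X : Type u) [TopologicalSpace X] [T35Space X], LocallyPseudocompact X →
      (∀ O : Set X, IsOpen O → O.Nonempty →
        ∃ W : Set X, IsOpen W ∧ W.Nonempty ∧ W ⊆ O ∧ PiWeightLeContinuum W) →
      OxtobyCountablyCompact X) ∧
    (∀ (I : Type u) (K : I → Type u) [∀ i, TopologicalSpace (K i)] [∀ i, CompactSpace (K i)]
      [∀ i, T2Space (K i)], (∀ i, WeightLeContinuum (K i)) → ∀ Y : Set (∀ i, K i),
      (∀ G : Set (∀ i, K i), IsGδ G → G.Nonempty → (G ∩ Y).Nonempty) →
      TelgarskyCountablyCompact Y) :=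
  ⟨fun _ _ _ hX hw => telgarsky_of_weight hX hw,
    fun _ _ _ hX hw => oxtoby_of_local_piweight hX hw,
    fun _ K _ _ _ hK Y hY => telgarsky_of_product K hK Y hY⟩

end Main

end Pool.Agent.Results.MP_ea20df_gt.WeightContinuum
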